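import Pool.Agent.H629Z.SaxlGen

set_option autoImplicit false

/-! The tetrahedral rotation group on `𝔽₅³` (the same linear group as in the starting file
`Pool/Agent/S03632.lean`). -/

namespace Pool.Agent.H629Z.SaxlA4

abbrev W : Type := ZMod 5 × ZMod 5 × ZMod 5

def sg : Fin 4 → W → W
  | 0, (a, b, c) => (a, b, c)
  | 1, (a, b, c) => (a, -b, -c)
  | 2, (a, b, c) => (-a, b, -c)
  | 3, (a, b, c) => (-a, -b, c)

def rt : Fin 3 → W → W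
  | 0, (a, b, c) => (a, b, c)
  | 1, (a, b, c) => (b, c, a)
  | 2, (a, b, c) => (c, a, b)

abbrev T : Type := Fin 4 × Fin 3

def tab (t : T) (x : W) : W := sg t.1 (rt t.2 x)

theorem tab_add (t : T) (x y : W) : tab t (x + y) = tab t x + tab t y := by
  obtain ⟨s, k⟩ := t
  obtain ⟨a, b, c⟩ := x
  obtain ⟨a', b', c'⟩ := y
  fin_cases s <;> fin_cases k <;> simp [tab, sg, rt, add_comm]

theorem tab_inj : ∀ t : T, ∀ x y : W, tab t x = tab t y → x = y := by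
  intro t x y
  obtain ⟨s, k⟩ := t
  obtain ⟨a, b, c⟩ := x
  obtain ⟨a', b', c'⟩ := y
  fin_cases s <;> fin_cases k <;> simp [tab, sg, rt] <;> tauto

theorem tab_mul : ∀ a b : T, ∃ c : T, ∀ x : W, tab a (tab b x) = tab c x := by decide +kernel

theorem tab_inv : ∀ a : T, ∃ c : T, ∀ x : W, tab a (tab c x) = x ∧ tab c (tab a x) = x := by
  decide +kernel

theorem double_ne : ∀ a : ZMod 5, a ≠ 0 → a + a ≠ 0 := by decide +kernel

theorem not_diff : ∀ x : W, ∀ t : T, x - (1, 1, 1) ≠ tab t x := by decide +kernel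

theorem tab_moves : ∀ x : W, x ≠ 0 → ∃ t : T, tab t x ≠ x := by decide +kernel

/-- the tetrahedral group -/
def K : Subgroup (Equiv.Perm W) where
  carrier := {k | ∃ t : T, ∀ x, k x = tab t x}
  one_mem' := ⟨(0, 0), fun _ => rfl⟩
  mul_mem' := by
    rintro k k' ⟨t, ht⟩ ⟨t', ht'⟩
    obtain ⟨c, hc⟩ := tab_mul t t'
    exact ⟨c, fun x => by rw [Equiv.Perm.mul_apply, ht, ht', hc]⟩
  inv_mem' := by
    rintro k ⟨t, ht⟩
    obtain ⟨c, hc⟩ := tab_inv t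
    refine ⟨c, fun x => ?_⟩
    rw [Equiv.Perm.inv_eq_iff_eq, ht, (hc x).1]

theorem mem_K {k : Equiv.Perm W} : k ∈ K ↔ ∃ t : T, ∀ x, k x = tab t x := Iff.rfl

theorem exists_K (t : T) : ∃ k ∈ K, ∀ x, k x = tab t x := by
  obtain ⟨c, hc⟩ := tab_inv t
  exact ⟨⟨tab t, tab c, fun x => (hc x).2, fun x => (hc x).1⟩, ⟨t, fun _ => rfl⟩, fun _ => rfl⟩

theorem hadd : ∀ k ∈ K, ∀ x y : W, k (x + y) = k x + k y := by
  rintro k ⟨t, ht⟩ x y
  rw [ht, ht, ht, tab_add]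

theorem hfix : ∀ x : W, x ≠ 0 → ∃ k ∈ K, k x ≠ x := by
  intro x hx
  obtain ⟨t, ht⟩ := tab_moves x hx
  obtain ⟨k, hk, hkt⟩ := exists_K t
  exact ⟨k, hk, by rw [hkt]; exact ht⟩

theorem mul_all (a : ZMod 5) (ha : a ≠ 0) : ∀ b : ZMod 5, ∃ m : ℕ, m • a = b := by
  revert a
  have : ∀ a : ZMod 5, a ≠ 0 → ∀ b : ZMod 5, ∃ m : Fin 5, m.val • a = b := by decide +kernel
  intro a ha b
  obtain ⟨m, hm⟩ := this a ha b
  exact ⟨m.val, hm⟩

theorem hirr : ∀ B : Set W, (∀ x ∈ B, ∀ y ∈ B, x + y ∈ B) → (∀ x ∈ B, -x ∈ B) →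
    (∀ k ∈ K, ∀ x ∈ B, k x ∈ B) → (∃ x ∈ B, x ≠ 0) → ∀ x, x ∈ B := by
  rintro B hBa hBn hBk ⟨x, hx, hx0⟩
  have hBt : ∀ t : T, ∀ x ∈ B, tab t x ∈ B := by
    intro t y hy
    obtain ⟨k, hk, hkt⟩ := exists_K t
    rw [← hkt]
    exact hBk k hk y hy
  have hB0 : (0 : W) ∈ B := by
    have := hBa x hx _ (hBn x hx)
    rwa [add_neg_cancel] at this
  have hBm : ∀ (m : ℕ), ∀ y ∈ B, m • y ∈ B := by
    intro m y hy
    induction m with
    | zero => rw [zero_nsmul]; exact hB0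
    | succ m ih => rw [succ_nsmul]; exact hBa _ ih _ hy
  -- a vector with non-zero first coordinate
  obtain ⟨a, b, c, hy, ha⟩ : ∃ a b c : ZMod 5, (a, b, c) ∈ B ∧ a ≠ 0 := by
    obtain ⟨a, b, c⟩ := x
    by_cases ha : a = 0
    · by_cases hb : b = 0
      · have hc : c ≠ 0 := by
          rintro rfl
          apply hx0
          rw [ha, hb]
          rfl
        exact ⟨c, a, b, hBt (0, 2) _ hx, hc⟩
      · exact ⟨b, c, a, hBt (0, 1) _ hx, hb⟩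
    · exact ⟨a, b, c, hx, ha⟩
  have h1 : ((a + a, 0, 0) : W) ∈ B := by
    have h2 := hBa _ hy _ (hBt (1, 0) _ hy)
    have h3 : ((a, b, c) : W) + tab (1, 0) (a, b, c) = (a + a, 0, 0) := by
      simp [tab, sg, rt]
    rwa [h3] at h2
  have ha2 : a + a ≠ 0 := double_ne a ha
  have hX : ∀ d : ZMod 5, ((d, 0, 0) : W) ∈ B := by
    intro d
    obtain ⟨m, hm⟩ := mul_all (a + a) ha2 d
    have h2 := hBm m _ h1
    have h3 : m • ((a + a, 0, 0) : W) = (d, 0, 0) := by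
      rw [← hm]
      simp
    rwa [h3] at h2
  have hY : ∀ d : ZMod 5, ((0, d, 0) : W) ∈ B := fun d => hBt (0, 2) _ (hX d)
  have hZ : ∀ d : ZMod 5, ((0, 0, d) : W) ∈ B := fun d => hBt (0, 1) _ (hX d)
  rintro ⟨d, e, f⟩
  have h2 := hBa _ (hBa _ (hX d) _ (hY e)) _ (hZ f)
  have h3 : ((d, 0, 0) : W) + (0, e, 0) + (0, 0, f) = (d, e, f) := by simp
  rwa [h3] at h2

theorem reg_tab : ∀ t : T, tab t (0, 1, 1) = (0, 1, 1) → t = (0, 0) := by decide +kernel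

theorem hreg : ∀ k ∈ K, k (0, 1, 1) = (0, 1, 1) → k = 1 := by
  rintro k ⟨t, ht⟩ h
  rw [ht] at h
  ext1 x
  rw [ht, reg_tab t h]
  rfl

theorem hw : ∀ k ∈ K, ∀ x : W, k x ≠ x - (1, 1, 1) := by
  rintro k ⟨t, ht⟩ x h
  rw [ht] at h
  exact not_diff x t h.symm

theorem main (b : ℕ) (hb : 2 ≤ b) :
    ∃ (Ω : Type) (_ : Finite Ω) (G : Subgroup (Equiv.Perm Ω)),
      MulAction.IsPreprimitive G Ω ∧
      (∃ B : Finset Ω, B.card = b ∧ ∀ g ∈ G, (∀ x ∈ B, g x = x) → g = 1) ∧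
      (∀ B : Finset Ω, (∀ g ∈ G, (∀ x ∈ B, g x = x) → g = 1) → b ≤ B.card) ∧
      ∃ α β : Ω, α ≠ β ∧ ¬ ∃ γ : Ω,
        (γ ≠ α ∧ ∃ B : Finset Ω, B.card = b ∧ α ∈ B ∧ γ ∈ B ∧
            ∀ g ∈ G, (∀ x ∈ B, g x = x) → g = 1) ∧
        (γ ≠ β ∧ ∃ B : Finset Ω, B.card = b ∧ β ∈ B ∧ γ ∈ B ∧
            ∀ g ∈ G, (∀ x ∈ B, g x = x) → g = 1) :=
  SaxlGen.general hadd hirr hfix (0, 1, 1) (by decide) hreg (1, 1, 1) hw b hb

end Pool.Agent.H629Z.SaxlA4
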