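import Pool.Agent.H66R2.Saxl

set_option autoImplicit false

namespace Pool.Agent.H629Z.SaxlGen

open Pool.Agent.H66R2.Saxl

section gen

variable {W : Type} [AddCommGroup W] {K : Subgroup (Equiv.Perm W)}
variable (hadd : ∀ k ∈ K, ∀ x y : W, k (x + y) = k x + k y) {n : ℕ} {J : Type}

/-- the family `γ` together with `0` is a base -/
def ZB (γ : J → Fin n → W) : Prop :=
  ∀ g ∈ GG K hadd n, g 0 = 0 → (∀ j, g (γ j) = γ j) → g = 1

/-- a tuple with trivial stabiliser -/
def Reg (K : Subgroup (Equiv.Perm W)) (c : J → W) : Prop := ∀ k ∈ K, (∀ j, k (c j) = c j) → k = 1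

/-- two tuples in one orbit -/
def orb (K : Subgroup (Equiv.Perm W)) (J : Type) : Setoid (J → W) where
  r c d := ∃ k ∈ K, ∀ j, k (c j) = d j
  iseqv := by
    refine ⟨fun c => ⟨1, K.one_mem, fun _ => rfl⟩, ?_, ?_⟩
    · rintro c d ⟨k, hk, h⟩
      exact ⟨k⁻¹, K.inv_mem hk, fun j => by rw [← h j]; simp⟩
    · rintro c d e ⟨k, hk, h⟩ ⟨k', hk', h'⟩
      exact ⟨k' * k, K.mul_mem hk' hk, fun j => by rw [Equiv.Perm.mul_apply, h, h']⟩

theorem reg_of_ZB {γ : J → Fin n → W} (hγ : ZB hadd γ) (i : Fin n) : Reg K fun j => γ j i := by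
  classical
  intro k hk hki
  have h1 := hγ (mkg 1 (fun j => if j = i then k else 1) 0) (mkg_mem hadd _ _ _ (by
      intro j
      split_ifs
      · exact hk
      · exact K.one_mem)) (by
      funext j
      rw [mkg_apply]
      by_cases hj : j = i
      · simp [hj, map_zero_of_mem hadd hk]
      · simp [hj]) (by
      intro l
      funext j
      rw [mkg_apply]
      by_cases hj : j = i
      · subst hj
        simpa using hki l
      · simp [hj])
  ext x
  have h2 := congrFun (congrArg (fun g : Equiv.Perm (Fin n → W) => g (fun _ => x)) h1) i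
  simpa [mkg_apply] using h2

theorem orb_of_ZB {γ : J → Fin n → W} (hγ : ZB hadd γ) (hW : ∃ x : W, x ≠ 0) (i i' : Fin n)
    (h : (orb K J).r (fun j => γ j i) (fun j => γ j i')) : i = i' := by
  classical
  by_contra hij
  obtain ⟨k, hk, hkij⟩ := h
  have h1 := hγ (mkg (Equiv.swap i i')
      (fun l => if l = i' then k else if l = i then k⁻¹ else 1) 0) (mkg_mem hadd _ _ _ (by
      intro l
      split_ifs
      · exact hk
      · exact K.inv_mem hk
      · exact K.one_mem)) (by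
      funext l
      rw [mkg_apply]
      by_cases hl : l = i'
      · simp [hl, map_zero_of_mem hadd hk]
      · by_cases hl' : l = i
        · have := map_zero_of_mem hadd (K.inv_mem hk)
          simp [hl', hij, this]
        · simp [hl, hl']) (by
      intro j
      have hj : k (γ j i) = γ j i' := hkij j
      funext l
      rw [mkg_apply]
      by_cases hl : l = i'
      · subst hl
        simp [hj]
      · by_cases hl' : l = i
        · subst hl'
          simp [hij, ← hj]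
        · rw [Equiv.swap_apply_of_ne_of_ne hl' hl]
          simp [hl, hl'])
  obtain ⟨x, hx⟩ := hW
  have h2 := congrFun (congrArg (fun g : Equiv.Perm (Fin n → W) => g (Pi.single i x)) h1) i
  simp only [mkg_apply, Equiv.swap_apply_left, Equiv.Perm.one_apply, Pi.single_eq_same,
    Pi.single_eq_of_ne (Ne.symm hij)] at h2
  rw [if_neg hij] at h2
  simp only [if_true, map_zero_of_mem hadd (K.inv_mem hk)] at h2
  simp at h2
  exact hx h2.symm

theorem ZB_of {γ : J → Fin n → W} (h1 : ∀ i, Reg K fun j => γ j i)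
    (h2 : ∀ i i', (orb K J).r (fun j => γ j i) (fun j => γ j i') → i = i') : ZB hadd γ := by
  rintro g ⟨σ, k, c, hk, hg⟩ h0 hγ
  have hc : ∀ i, c i = 0 := by
    intro i
    have := congrFun h0 i
    rw [hg] at this
    simpa [map_zero_of_mem hadd (hk i)] using this
  have hs : ∀ i, σ i = i := by
    intro i
    apply h2
    refine ⟨k i, hk i, fun j => ?_⟩
    have := congrFun (hγ j) i
    rw [hg, hc, add_zero] at this
    exact this
  have hk1 : ∀ i, k i = 1 := by
    intro i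
    apply h1 i (k i) (hk i)
    intro j
    have := congrFun (hγ j) i
    rw [hg, hc, add_zero, hs] at this
    exact this
  ext x i
  rw [hg, hc, hk1, hs]
  simp

/-- translating a base so that it contains `0` -/
theorem ZB_of_base (B : Finset (Fin n → W))
    (hB : ∀ g ∈ GG K hadd n, (∀ x ∈ B, g x = x) → g = 1) (β : Fin n → W)
    (γ : J → Fin n → W) (hγ : ∀ x ∈ B, x = β ∨ ∃ j, γ j = x - β) : ZB hadd γ := by
  intro g hg h0 hfix
  let t : Equiv.Perm (Fin n → W) := mkg 1 (fun _ => 1) β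
  have ht : t ∈ GG K hadd n := mkg_mem hadd _ _ _ fun _ => K.one_mem
  have hta : ∀ x, t x = x + β := by
    intro x
    funext i
    simp [t, mkg_apply]
  have h1 : t * g * t⁻¹ = 1 := by
    apply hB _ ((GG K hadd n).mul_mem ((GG K hadd n).mul_mem ht hg) ((GG K hadd n).inv_mem ht))
    intro x hx
    have hti : t⁻¹ x = x - β := by
      rw [Equiv.Perm.inv_eq_iff_eq, hta]
      simp
    rw [Equiv.Perm.mul_apply, Equiv.Perm.mul_apply, hti]
    rcases hγ x hx with h | ⟨j, h⟩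
    · rw [h, sub_self, h0, hta, zero_add]
    · rw [← h, hfix, hta, h]
      simp
  have h2 : g = t⁻¹ * (t * g * t⁻¹) * t := by group
  rw [h2, h1]
  simp

end gen

/-- the regular orbits on `J`-tuples -/
def RO {W : Type} [AddCommGroup W] (K : Subgroup (Equiv.Perm W)) (J : Type) : Type :=
  {q : Quotient (orb K J) // ∃ c, Reg K c ∧ Quotient.mk (orb K J) c = q}

instance {W : Type} [AddCommGroup W] [Finite W] (K : Subgroup (Equiv.Perm W)) (J : Type)
    [Finite J] : Finite (RO K J) := by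
  unfold RO
  infer_instance

section main

variable {W : Type} [AddCommGroup W] [Finite W] {K : Subgroup (Equiv.Perm W)}
variable (hadd : ∀ k ∈ K, ∀ x y : W, k (x + y) = k x + k y) {J : Type} [Finite J]

/-- the column map of a base -/
def col {n : ℕ} {γ : J → Fin n → W} (hγ : ZB hadd γ) (i : Fin n) : RO K J :=
  ⟨Quotient.mk _ fun j => γ j i, _, reg_of_ZB hadd hγ i, rfl⟩

theorem col_bij {γ : J → Fin (Nat.card (RO K J)) → W} (hγ : ZB hadd γ) (hW : ∃ x : W, x ≠ 0) :
    Function.Bijective (col hadd hγ) := by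
  apply (Nat.bijective_iff_injective_and_card _).2
  refine ⟨fun i i' h => ?_, by simp⟩
  exact orb_of_ZB hadd hγ hW i i' (Quotient.exact (congrArg Subtype.val h))

theorem exists_ZB : ∃ γ : J → Fin (Nat.card (RO K J)) → W, ZB hadd γ := by
  classical
  let e : Fin (Nat.card (RO K J)) ≃ RO K J := (Finite.equivFin _).symm
  choose c hc hq using fun i => (e i).2
  refine ⟨fun j i => c i j, ZB_of hadd hc fun i i' h => ?_⟩
  apply e.injective
  apply Subtype.ext
  rw [← hq, ← hq]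
  exact Quotient.sound h

/-- no member of a base family can vanish -/
theorem ZB_ne_zero {γ : J → Fin (Nat.card (RO K J)) → W} (hγ : ZB hadd γ) (r : W) (hr0 : r ≠ 0)
    (hr : ∀ k ∈ K, k r = r → k = 1) (j : J) : γ j ≠ 0 := by
  intro h0
  obtain ⟨i, hi⟩ := (col_bij hadd hγ ⟨r, hr0⟩).2
    ⟨Quotient.mk _ fun _ => r, _, fun k hk h => hr k hk (h j), rfl⟩
  obtain ⟨k, hk, h⟩ := Quotient.exact (congrArg Subtype.val hi)
  have h1 : k (γ j i) = r := h j
  rw [h0, Pi.zero_apply, map_zero_of_mem hadd hk] at h1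
  exact hr0 h1.symm

/-- two base families whose `j`-th members differ in one coordinate -/
theorem ZB_pair {γ δ : J → Fin (Nat.card (RO K J)) → W} (hγ : ZB hadd γ) (hδ : ZB hadd δ)
    (hW : ∃ x : W, x ≠ 0) (j : J) (i₀ : Fin (Nat.card (RO K J)))
    (h : ∀ i, i ≠ i₀ → γ j i = δ j i) : ∃ k ∈ K, k (γ j i₀) = δ j i₀ := by
  classical
  let σ := (Equiv.ofBijective _ (col_bij hadd hγ hW)).trans
    (Equiv.ofBijective _ (col_bij hadd hδ hW)).symm
  have hσ : ∀ i, ∃ k ∈ K, k (γ j i) = δ j (σ i) := by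
    intro i
    have h1 : col hadd hδ (σ i) = col hadd hγ i :=
      (Equiv.ofBijective _ (col_bij hadd hδ hW)).apply_symm_apply _
    obtain ⟨k, hk, h2⟩ := Quotient.exact (congrArg Subtype.val h1.symm)
    exact ⟨k, hk, h2 j⟩
  let P : W → Prop := fun y => ∃ k ∈ K, k (γ j i₀) = y
  have hP : ∀ k ∈ K, ∀ y, P y ↔ P (k y) := by
    intro k hk y
    constructor
    · rintro ⟨k', hk', h1⟩
      exact ⟨k * k', K.mul_mem hk hk', by rw [Equiv.Perm.mul_apply, h1]⟩
    · rintro ⟨k', hk', h1⟩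
      exact ⟨k⁻¹ * k', K.mul_mem (K.inv_mem hk) hk', by rw [Equiv.Perm.mul_apply, h1]; simp⟩
  have hc : (Finset.univ.filter fun i => P (γ j i)).card =
      (Finset.univ.filter fun i => P (δ j i)).card := by
    apply Finset.card_equiv σ
    intro i
    obtain ⟨k, hk, h1⟩ := hσ i
    simp only [Finset.mem_filter, Finset.mem_univ, true_and]
    rw [← h1]
    exact hP k hk _
  by_contra hn
  have hsub : (Finset.univ.filter fun i => P (δ j i)) ⊂ (Finset.univ.filter fun i => P (γ j i)) := by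
    rw [Finset.ssubset_iff_of_subset]
    · refine ⟨i₀, ?_, ?_⟩
      · simp only [Finset.mem_filter, Finset.mem_univ, true_and]
        exact ⟨1, K.one_mem, rfl⟩
      · simp only [Finset.mem_filter, Finset.mem_univ, true_and]
        exact hn
    · intro i hi
      simp only [Finset.mem_filter, Finset.mem_univ, true_and] at hi ⊢
      by_cases h1 : i = i₀
      · rw [h1] at hi
        exact absurd hi hn
      · rw [h i h1]
        exact hi
  exact absurd (Finset.card_lt_card hsub) (by rw [hc]; exact lt_irrefl _)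

end main

/-- listing a small set with a prescribed first entry -/
theorem exists_list {V : Type} (m : ℕ) (S : Finset V) (v : V) (hS : S.card ≤ m) :
    ∃ γ : Fin (m + 1) → V, γ 0 = v ∧ ∀ x ∈ S, ∃ j, γ j = x := by
  classical
  obtain ⟨f, hf⟩ : ∃ f : Fin m → V, ∀ x ∈ S, ∃ j, f j = x := by
    let e := S.equivFin
    refine ⟨fun j => if h : j.val < S.card then (e.symm ⟨j.val, h⟩ : V) else v, fun x hx => ?_⟩
    refine ⟨⟨(e ⟨x, hx⟩).val, lt_of_lt_of_le (e ⟨x, hx⟩).2 hS⟩, ?_⟩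
    simp
  refine ⟨Fin.cons v f, rfl, fun x hx => ?_⟩
  obtain ⟨j, hj⟩ := hf x hx
  exact ⟨j.succ, by simpa using hj⟩

theorem general {W : Type} [AddCommGroup W] [Finite W] {K : Subgroup (Equiv.Perm W)}
    (hadd : ∀ k ∈ K, ∀ x y : W, k (x + y) = k x + k y)
    (hirr : ∀ B : Set W, (∀ x ∈ B, ∀ y ∈ B, x + y ∈ B) → (∀ x ∈ B, -x ∈ B) →
      (∀ k ∈ K, ∀ x ∈ B, k x ∈ B) → (∃ x ∈ B, x ≠ 0) → ∀ x, x ∈ B)
    (hfix : ∀ x : W, x ≠ 0 → ∃ k ∈ K, k x ≠ x)
    (r : W) (hr0 : r ≠ 0) (hr : ∀ k ∈ K, k r = r → k = 1)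
    (w : W) (hw : ∀ k ∈ K, ∀ x, k x ≠ x - w) (b : ℕ) (hb : 2 ≤ b) :
    ∃ (Ω : Type) (_ : Finite Ω) (G : Subgroup (Equiv.Perm Ω)),
      MulAction.IsPreprimitive G Ω ∧
      (∃ B : Finset Ω, B.card = b ∧ ∀ g ∈ G, (∀ x ∈ B, g x = x) → g = 1) ∧
      (∀ B : Finset Ω, (∀ g ∈ G, (∀ x ∈ B, g x = x) → g = 1) → b ≤ B.card) ∧
      ∃ α β : Ω, α ≠ β ∧ ¬ ∃ γ : Ω,
        (γ ≠ α ∧ ∃ B : Finset Ω, B.card = b ∧ α ∈ B ∧ γ ∈ B ∧
            ∀ g ∈ G, (∀ x ∈ B, g x = x) → g = 1) ∧
        (γ ≠ β ∧ ∃ B : Finset Ω, B.card = b ∧ β ∈ B ∧ γ ∈ B ∧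
            ∀ g ∈ G, (∀ x ∈ B, g x = x) → g = 1) := by
  classical
  obtain ⟨m, rfl⟩ : ∃ m, b = m + 2 := ⟨b - 2, by omega⟩
  let J := Fin (m + 1)
  let n := Nat.card (RO K J)
  have hlow : ∀ B : Finset (Fin n → W), (∀ g ∈ GG K hadd n, (∀ x ∈ B, g x = x) → g = 1) →
      m + 2 ≤ B.card := by
    intro B hB
    by_contra hlt
    obtain ⟨β, hβ⟩ : ∃ β : Fin n → W, (B.erase β).card ≤ m := by
      rcases B.eq_empty_or_nonempty with h | ⟨β, h⟩
      · exact ⟨0, by simp [h]⟩
      · exact ⟨β, by rw [Finset.card_erase_of_mem h]; omega⟩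
    obtain ⟨γ, h0, hγ⟩ := exists_list m ((B.erase β).image fun x => x - β) 0
      (le_trans Finset.card_image_le hβ)
    have hZ : ZB hadd γ := ZB_of_base hadd B hB β γ fun x hx => by
      by_cases h : x = β
      · exact Or.inl h
      · exact Or.inr (hγ _ (Finset.mem_image.2 ⟨x, Finset.mem_erase.2 ⟨h, hx⟩, rfl⟩))
    exact ZB_ne_zero hadd (J := J) hZ r hr0 hr 0 h0
  have hlist : ∀ (B : Finset (Fin n → W)) (β γ : Fin n → W), B.card = m + 2 → β ∈ B → γ ∈ B →
      γ ≠ β → (∀ g ∈ GG K hadd n, (∀ x ∈ B, g x = x) → g = 1) →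
      ∃ δ : J → Fin n → W, ZB hadd δ ∧ δ 0 = γ - β := by
    intro B β γ hc hβ hγ hne hB
    obtain ⟨δ, h0, hδ⟩ := exists_list m (((B.erase β).erase γ).image fun x => x - β) (γ - β)
      (le_trans Finset.card_image_le (by
        rw [Finset.card_erase_of_mem (Finset.mem_erase.2 ⟨hne, hγ⟩), Finset.card_erase_of_mem hβ]
        omega))
    refine ⟨δ, ZB_of_base hadd B hB β δ fun x hx => ?_, h0⟩
    by_cases h : x = β
    · exact Or.inl h
    · right
      by_cases h' : x = γ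
      · exact ⟨0, by rw [h0, h']⟩
      · exact hδ _ (Finset.mem_image.2 ⟨x, Finset.mem_erase.2 ⟨h', Finset.mem_erase.2 ⟨h, hx⟩⟩, rfl⟩)
  have hn : 0 < n := by
    have : Nonempty (RO K J) :=
      ⟨⟨Quotient.mk _ fun _ => r, _, fun k hk h => hr k hk (h 0), rfl⟩⟩
    exact Nat.card_pos
  let i₀ : Fin n := ⟨0, hn⟩
  have hw0 : w ≠ 0 := by
    intro h
    exact hw 1 K.one_mem 0 (by simp [h])
  refine ⟨Fin n → W, inferInstance, GG K hadd n, prim hadd hirr hfix, ?_, hlow,
    0, Pi.single i₀ w, ?_, ?_⟩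
  · obtain ⟨γ, hγ⟩ := exists_ZB hadd (J := J)
    have hB : ∀ g ∈ GG K hadd n, (∀ x ∈ insert 0 (Finset.univ.image γ), g x = x) → g = 1 := by
      intro g hg h
      exact hγ g hg (h _ (Finset.mem_insert_self _ _)) fun j => h _ (by simp)
    refine ⟨_, le_antisymm ?_ (hlow _ hB), hB⟩
    refine le_trans (Finset.card_insert_le _ _) ?_
    have : (Finset.univ.image γ).card ≤ m + 1 :=
      le_trans Finset.card_image_le (by simp [J])
    omega
  · intro h
    have := congrFun h i₀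
    simp at this
    exact hw0 this.symm
  · rintro ⟨γ, ⟨h1, B₁, c₁, a₁, g₁, hB₁⟩, h2, B₂, c₂, a₂, g₂, hB₂⟩
    obtain ⟨δ₁, hδ₁, e₁⟩ := hlist B₁ _ γ c₁ a₁ g₁ h1 hB₁
    obtain ⟨δ₂, hδ₂, e₂⟩ := hlist B₂ _ γ c₂ a₂ g₂ h2 hB₂
    obtain ⟨k, hk, h⟩ := ZB_pair hadd (J := J) hδ₁ hδ₂ ⟨r, hr0⟩ 0 i₀ fun i hi => by
      rw [e₁, e₂]
      simp [hi]
    rw [e₁, e₂] at h
    exact hw k hk (γ i₀) (by simpa using h)

end Pool.Agent.H629Z.SaxlGen
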